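import Pool.Agent.H.MP_70614a_al.B

namespace Pool.Agent.Results.MP_8e2405_al.No

open CategoryTheory Set Pool.Agent.H.MP_70614a_al

section defs
variable {A : Type*} [Category A] [Abelian A]

/-- `F` is a torsion-free class of the subcategory `E`, whose conflations are the short exact
sequences of `A` with all three terms in `E`. -/
def IsTF (E F : ObjectProperty A) : Prop :=
  F.IsClosedUnderIsomorphisms ∧ F ≤ E ∧
    ∀ S : ShortComplex A, S.ShortExact → E S.X₁ → E S.X₂ → E S.X₃ →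
      (F S.X₁ → F S.X₃ → F S.X₂) ∧ (F S.X₂ → F S.X₁)

/-- `n`-fold torsion-free classes of `A` -/
def NFold (n : ℕ) (X : ObjectProperty A) : Prop :=
  ∃ F : ℕ → ObjectProperty A, F 0 = ⊤ ∧ F n = X ∧ ∀ i < n, IsTF (F i) (F (i + 1))

/-- closed under extensions in `A` and under `m`-kernels: for `0 → M → X⁰ → ⋯ → Xᵐ` exact with
all `Xⁱ` in `X`, also `M` is in `X`. -/
def KEClosed (m : ℕ) (X : ObjectProperty A) : Prop :=
  (∀ S : ShortComplex A, S.ShortExact → X S.X₁ → X S.X₃ → X S.X₂) ∧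
    ∀ S : ComposableArrows A (m + 1), S.Exact → Mono (S.map' 0 1) →
      (∀ i : Fin (m + 2), i ≠ 0 → X (S.obj i)) → X (S.obj 0)

end defs

section chase
variable {R : Type} [Ring R]

def Ex (f e g : R) (M : Type) [AddCommGroup M] [Module R M] : Prop :=
  ∀ m : M, g • m = 0 → ∃ x : M, f • x = e • m

variable {L M N : Type} [AddCommGroup L] [Module R L] [AddCommGroup M] [Module R M]
  [AddCommGroup N] [Module R N]

lemma Ex.equiv {f e g : R} (φ : L ≃ₗ[R] M) (h : Ex f e g L) : Ex f e g M := by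
  intro m hm
  obtain ⟨x, hx⟩ := h (φ.symm m) (by rw [← map_smul, hm, map_zero])
  exact ⟨φ x, by rw [← map_smul, hx, map_smul, φ.apply_symm_apply]⟩

lemma Ex.mid {f e g : R} {i : L →ₗ[R] M} {π : M →ₗ[R] N} (hi : Function.Injective i)
    (hπ : Function.Surjective π) (he : Function.Exact i π) (h1 : g * e = g) (h2 : e * f = f)
    (h3 : e * e = e) (h4 : ∀ m : M, g • f • m = 0) (hL : Ex f e g L) (hN : Ex f e g N) :
    Ex f e g M := by
  intro m hm
  obtain ⟨y, hy⟩ := hN (π m) (by rw [← map_smul, hm, map_zero])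
  obtain ⟨x, rfl⟩ := hπ y
  obtain ⟨l, hl⟩ := (he (e • m - f • x)).1 (by rw [map_sub, map_smul, map_smul, hy, sub_self])
  obtain ⟨z, hz⟩ := hL l (hi (by
    rw [map_smul, hl, smul_sub, h4, ← mul_smul, h1, hm, sub_zero, map_zero]))
  refine ⟨x + i z, ?_⟩
  rw [smul_add, ← map_smul, hz, map_smul, hl, smul_sub, ← mul_smul, ← mul_smul, h3, h2]
  abel

lemma Ex.sub {e g : R} {i : L →ₗ[R] M} (hi : Function.Injective i) (hM : Ex 0 e g M) :
    Ex 0 e g L := by
  intro m hm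
  obtain ⟨x, hx⟩ := hM (i m) (by rw [← map_smul, hm, map_zero])
  exact ⟨0, hi (by rw [map_smul, map_smul, ← hx, zero_smul, zero_smul])⟩

lemma Ex.ker1 {f e g e' : R} {i : L →ₗ[R] M} {d : M →ₗ[R] N} (hi : Function.Injective i)
    (he : Function.Exact i d) (h1 : f * e' = f) (hM : Ex f e g M) (hN : Ex 0 e' f N) :
    Ex f e g L := by
  intro m hm
  obtain ⟨x, hx⟩ := hM (i m) (by rw [← map_smul, hm, map_zero])
  obtain ⟨y, hy⟩ := hN (d x) (by rw [← map_smul, hx, map_smul, he.apply_apply_eq_zero, smul_zero])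
  obtain ⟨l, hl⟩ := (he (e' • x)).1 (by rw [map_smul, ← hy, zero_smul])
  exact ⟨l, hi (by rw [map_smul, hl, ← mul_smul, h1, hx, map_smul])⟩

variable {K : Type} [AddCommGroup K] [Module R K]

lemma Ex.ker2 {f e g f' e' e'' : R} {i : K →ₗ[R] L} {d : L →ₗ[R] M} {d' : M →ₗ[R] N}
    (hi : Function.Injective i) (he : Function.Exact i d) (he' : Function.Exact d d')
    (h1 : f * e' = f) (h2 : f' * e'' = f') (h4 : ∀ m : L, f • f' • m = 0)
    (hL : Ex f e g L) (hM : Ex f' e' f M) (hN : Ex 0 e'' f' N) : Ex f e g K := by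
  intro m hm
  obtain ⟨y, hy⟩ := hL (i m) (by rw [← map_smul, hm, map_zero])
  obtain ⟨x, hx⟩ := (Ex.ker1 (LinearMap.range d).injective_subtype (d := d')
    (fun z => by rw [he' z]; simp) h2 hM hN) ⟨d y, y, rfl⟩ (Subtype.ext (by
      change f • d y = 0
      rw [← map_smul, hy, map_smul, he.apply_apply_eq_zero, smul_zero]))
  obtain ⟨_, x, rfl⟩ := x
  have hx' : f' • d x = e' • d y := congrArg Subtype.val hx
  obtain ⟨l, hl⟩ := (he (e' • y - f' • x)).1 (by rw [map_sub, map_smul, map_smul, hx', sub_self])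
  exact ⟨l, hi (by rw [map_smul, hl, smul_sub, h4, sub_zero, ← mul_smul, h1, hy, map_smul])⟩

lemma Ex.ker3 {f0 f1 f2 f3 e1 e3 e4 : R} {i : K →ₗ[R] L} {d : L →ₗ[R] M} {d' : M →ₗ[R] N}
    (hi : Function.Injective i) (he : Function.Exact i d) (he' : Function.Exact d d')
    (h1 : f3 * e3 = f3) (h2 : f1 * e1 = f1) (h4 : ∀ m : L, f3 • f2 • m = 0)
    (h5 : ∀ m : N, f1 • f0 • m = 0)
    (hL : Ex f3 e4 0 L) (hM : Ex (f2 * f1) e3 f3 M) (hN : Ex f0 e1 (f2 * f1) N) :
    Ex f3 e4 0 K := by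
  intro m _
  obtain ⟨u, hu⟩ := hL (i m) (zero_smul _ _)
  obtain ⟨y, hy⟩ := hM (d u) (by rw [← map_smul, hu, map_smul, he.apply_apply_eq_zero, smul_zero])
  obtain ⟨x, hx⟩ := hN (d' y) (by rw [← map_smul, hy, map_smul, he'.apply_apply_eq_zero, smul_zero])
  obtain ⟨w, hw⟩ := (he' (f1 • y)).1 (by rw [map_smul, ← h2, mul_smul, ← hx, h5])
  obtain ⟨l, hl⟩ := (he (e3 • u - f2 • w)).1 (by
    rw [map_sub, map_smul, map_smul, hw, ← mul_smul, hy, sub_self])
  exact ⟨l, hi (by rw [map_smul, hl, smul_sub, h4, sub_zero, ← mul_smul, h1, hu, map_smul])⟩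

end chase

abbrev P := Fin 3 × Fin 3
abbrev R := IA P

lemma EE {z y x : P} (h1 : z ≤ y) (h2 : y ≤ x) : E z y * E y x = E z x := by
  rw [mulE _ h2, Finset.sum_eq_single z]
  · rw [E_apply, if_pos ⟨rfl, rfl, h1⟩, one_smul]
  · intro b _ hb
    rw [E_apply, if_neg fun h => hb h.1, zero_smul]
  · simp

def XX (M : Type) [AddCommGroup M] [Module R M] : Prop :=
  Ex 0 (E ((2, 1) : P) (2, 1)) 0 M ∧ Ex 0 (E ((0, 1) : P) (0, 1)) 0 M ∧
  Ex 0 (E ((2, 2) : P) (2, 2)) (E (1, 2) (2, 2)) M ∧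
  Ex (E ((1, 2) : P) (2, 2)) (E (1, 2) (1, 2)) (E (1, 0) (1, 2)) M ∧
  Ex (E ((1, 0) : P) (1, 2)) (E (1, 0) (1, 0)) (E (0, 0) (1, 0)) M ∧
  Ex (E ((0, 0) : P) (1, 0)) (E (0, 0) (0, 0)) 0 M

section
variable {M : Type} [AddCommGroup M] [Module R M]

lemma via {p : P} (h : Ex 0 (E p p) 0 M) {z y x : P} (h1 : z ≤ y) (h2 : y ≤ x) (h3 : z ≤ p)
    (h4 : p ≤ x) (m : M) : E z y • E y x • m = 0 := by
  obtain ⟨w, hw⟩ := h (E p x • m) (zero_smul _ _)
  rw [← mul_smul, EE h1 h2, ← EE h3 h4, ← EE h3 le_rfl, mul_smul, mul_smul, ← hw, zero_smul,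
    smul_zero]
end

def X : ObjectProperty (ModuleCat.{0} R) := fun M => XX M

lemma X_iso : X.IsClosedUnderIsomorphisms :=
  ⟨fun e h => ⟨h.1.equiv e.toLinearEquiv, h.2.1.equiv e.toLinearEquiv,
    h.2.2.1.equiv e.toLinearEquiv, h.2.2.2.1.equiv e.toLinearEquiv,
    h.2.2.2.2.1.equiv e.toLinearEquiv, h.2.2.2.2.2.equiv e.toLinearEquiv⟩⟩

lemma X_KE : KEClosed 2 X := by
  constructor
  · intro S hS h1 h3
    have hi : Function.Injective S.f.hom := hS.moduleCat_injective_f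
    have hp : Function.Surjective S.g.hom := hS.moduleCat_surjective_g
    have he : Function.Exact S.f.hom S.g.hom :=
      (ShortComplex.ShortExact.moduleCat_exact_iff_function_exact S).1 hS.exact
    have a1 := Ex.mid hi hp he (zero_mul _) (mul_zero _) (EE le_rfl le_rfl)
      (fun _ => zero_smul _ _) h1.1 h3.1
    have a2 := Ex.mid hi hp he (zero_mul _) (mul_zero _) (EE le_rfl le_rfl)
      (fun _ => zero_smul _ _) h1.2.1 h3.2.1
    exact ⟨a1, a2,
      Ex.mid hi hp he (EE (by decide) le_rfl) (mul_zero _) (EE le_rfl le_rfl)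
        (fun _ => by rw [zero_smul, smul_zero]) h1.2.2.1 h3.2.2.1,
      Ex.mid hi hp he (EE (by decide) le_rfl) (EE le_rfl (by decide)) (EE le_rfl le_rfl)
        (via a1 (by decide) (by decide) (by decide) (by decide)) h1.2.2.2.1 h3.2.2.2.1,
      Ex.mid hi hp he (EE (by decide) le_rfl) (EE le_rfl (by decide)) (EE le_rfl le_rfl)
        (via a2 (by decide) (by decide) (by decide) (by decide)) h1.2.2.2.2.1 h3.2.2.2.2.1,
      Ex.mid hi hp he (zero_mul _) (EE le_rfl (by decide)) (EE le_rfl le_rfl)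
        (fun _ => zero_smul _ _) h1.2.2.2.2.2 h3.2.2.2.2.2⟩
  · intro S hS hm hX
    have h1 : XX (S.obj 1) := hX 1 (by decide)
    have h2 : XX (S.obj 2) := hX 2 (by decide)
    have h3 : XX (S.obj 3) := hX 3 (by decide)
    have hi : Function.Injective (S.map' 0 1).hom := (ModuleCat.mono_iff_injective _).1 hm
    have he : Function.Exact (S.map' 0 1).hom (S.map' 1 2).hom :=
      (ShortComplex.ShortExact.moduleCat_exact_iff_function_exact _).1 (hS.exact 0)
    have he' : Function.Exact (S.map' 1 2).hom (S.map' 2 3).hom :=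
      (ShortComplex.ShortExact.moduleCat_exact_iff_function_exact _).1 (hS.exact 1)
    have g1 : (E ((1, 0) : P) (1, 1) : R) * E (1, 1) (1, 2) = E (1, 0) (1, 2) :=
      EE (by decide) (by decide)
    refine ⟨Ex.sub hi h1.1, Ex.sub hi h1.2.1, Ex.sub hi h1.2.2.1,
      Ex.ker1 hi he (EE (by decide) le_rfl) h1.2.2.2.1 h2.2.2.1,
      Ex.ker2 hi he he' (EE (by decide) le_rfl) (EE (by decide) le_rfl)
        (via h1.1 (by decide) (by decide) (by decide) (by decide))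
        h1.2.2.2.2.1 h2.2.2.2.1 h3.2.2.1, ?_⟩
    exact Ex.ker3 (f1 := E (1, 1) (1, 2)) (f2 := E (1, 0) (1, 1)) hi he he'
      (EE (by decide) le_rfl) (EE (by decide) le_rfl)
      (via h1.2.1 (by decide) (by decide) (by decide) (by decide))
      (via h3.1 (by decide) (by decide) (by decide) (by decide))
      h1.2.2.2.2.2 (g1 ▸ h2.2.2.2.2.1) (g1 ▸ h3.2.2.2.1)

lemma oc (U : Finset P) (h : ∀ x ∈ U, ∀ y ∈ U, ∀ z, x ≤ z → z ≤ y → z ∈ U) :
    (U : Set P).OrdConnected := ⟨fun x hx y hy z hz => h x hx y hy z hz.1 hz.2⟩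

noncomputable def T (U : Finset P)
    (h : ∀ x ∈ U, ∀ y ∈ U, ∀ z, x ≤ z → z ≤ y → z ∈ U) : ModuleCat.{0} R :=
  (thin P ℚ).T U (oc U h)

lemma ses (U' U U'' : Finset P) (h' h h'') (h1 : U' ⊆ U)
    (h2 : ∀ x ∈ U, ∀ y ∈ U', x ≤ y → x ∈ U') (h3 : U \ U' = U'') :
    ∃ S : ShortComplex (ModuleCat.{0} R), S.ShortExact ∧ S.X₁ = T U' h' ∧ S.X₂ = T U h ∧
      S.X₃ = T U'' h'' := by
  subst h3
  obtain ⟨f, g, w, hS⟩ := (thin P ℚ).ses (oc U h) (U' := U') ⟨h1, h2⟩
  refine ⟨_, hS, rfl, rfl, ?_⟩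
  simp only [T, Finset.coe_sdiff]

lemma E_val {U : Set P} {h : U.OrdConnected} (y x a : P) (v : Th ℚ U h) (ha : a ∈ U) :
    (E y x • v).1 a = if a = y ∧ y ≤ x then v.1 x else 0 := by
  rw [smul_val _ _ ha, Finset.sum_eq_single x]
  · rw [E_apply]
    by_cases h1 : a = y
    · subst h1; by_cases h2 : a ≤ x <;> simp [h2]
    · simp [h1]
  · intro b _ hb
    rw [E_apply, if_neg fun h => hb h.2.1, zero_smul]
  · simp

lemma ex_out {U : Set P} {h : U.OrdConnected} (f g : R) {a : P} (ha : a ∉ U) :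
    Ex f (E a a) g (Th ℚ U h) := fun m _ => ⟨0, by
  rw [smul_zero]
  refine Th.ext fun x hx => ?_
  rw [E_val _ _ _ _ hx, if_neg (fun h' : x = a ∧ a ≤ a => ha (h'.1 ▸ hx)), zero_val]⟩

lemma ex_inj {U : Set P} {h : U.OrdConnected} (f : R) {a b : P} (hb : b ∈ U) (hab : b ≤ a) :
    Ex f (E a a) (E b a) (Th ℚ U h) := fun m hm => ⟨0, by
  rw [smul_zero]
  have := congrFun (congrArg Subtype.val hm) b
  rw [E_val _ _ _ _ hb, if_pos ⟨rfl, hab⟩, zero_val] at this
  refine Th.ext fun x hx => ?_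
  rw [E_val _ _ _ _ hx, this, ite_self, zero_val]⟩

lemma ex_surj {U : Set P} {h : U.OrdConnected} (g : R) {a b : P} (hb : b ∈ U) (hab : a ≤ b) :
    Ex (E a b) (E a a) g (Th ℚ U h) := fun m _ =>
  ⟨⟨fun x => if x = b then m.1 a else 0, fun y hx => if_neg fun h' : y = b => hx (h' ▸ hb)⟩,
    Th.ext fun x hx => by
      rw [E_val _ _ _ _ hx, E_val _ _ _ _ hx]
      simp [hab]⟩

lemma X01 : X (T {(2, 2), (1, 2)} (by decide)) :=
  ⟨ex_out _ _ (by decide), ex_out _ _ (by decide), ex_inj _ (by decide) (by decide),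
    ex_surj _ (by decide) (by decide), ex_out _ _ (by decide), ex_out _ _ (by decide)⟩

lemma X2 : X (T {(1, 1)} (by decide)) :=
  ⟨ex_out _ _ (by decide), ex_out _ _ (by decide), ex_out _ _ (by decide),
    ex_out _ _ (by decide), ex_out _ _ (by decide), ex_out _ _ (by decide)⟩

lemma X13 : X (T {(1, 2), (1, 1), (1, 0)} (by decide)) :=
  ⟨ex_out _ _ (by decide), ex_out _ _ (by decide), ex_out _ _ (by decide),
    ex_inj _ (by decide) (by decide), ex_surj _ (by decide) (by decide), ex_out _ _ (by decide)⟩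

lemma X34 : X (T {(1, 0), (0, 0)} (by decide)) :=
  ⟨ex_out _ _ (by decide), ex_out _ _ (by decide), ex_out _ _ (by decide),
    ex_out _ _ (by decide), ex_inj _ (by decide) (by decide), ex_surj _ (by decide) (by decide)⟩

lemma not4 : ¬ X (T {(0, 0)} (by decide)) := by
  intro h
  have h' : XX (Th ℚ (({(0, 0)} : Finset P) : Set P) (oc _ (by decide))) := h
  obtain ⟨x, hx⟩ := h'.2.2.2.2.2
    ⟨fun x => if x = (0, 0) then 1 else 0, fun _ hx => if_neg fun h' => hx (by simp [h'])⟩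
      (zero_smul _ _)
  have := congrFun (congrArg Subtype.val hx) (0, 0)
  rw [E_val _ _ _ _ (by simp), E_val _ _ _ _ (by simp), x.2 (1, 0) (by decide)] at this
  simp at this

theorem result : ∃ (A : Type 1) (_ : Category.{0} A) (_ : Abelian A) (m : ℕ)
    (X : ObjectProperty A), X.IsClosedUnderIsomorphisms ∧ KEClosed m X ∧ ¬ NFold (m + 1) X := by
  refine ⟨ModuleCat.{0} R, inferInstance, inferInstance, 2, X, X_iso, X_KE, ?_⟩
  rintro ⟨F, h0, h3, h⟩
  obtain ⟨-, -, t1⟩ := h 0 (by decide)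
  obtain ⟨-, l2, t2⟩ := h 1 (by decide)
  obtain ⟨-, l3, t3⟩ := h 2 (by decide)
  rw [h0] at t1
  change F 3 = X at h3
  change F 3 ≤ F 2 at l3
  rw [h3] at l3
  have l1 : X ≤ F 1 := l3.trans l2
  have a1 : F 1 (T {(1, 2)} (by decide)) := by
    obtain ⟨S, hS, e1, e2, e3⟩ := ses {(1, 2)} {(2, 2), (1, 2)} {(2, 2)} (by decide) (by decide)
      (by decide) (by decide) (by decide) (by decide)
    exact e1 ▸ (t1 S hS trivial trivial trivial).2 (e2 ▸ l1 _ X01)
  have a2 : F 1 (T {(1, 2), (1, 1)} (by decide)) := by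
    obtain ⟨S, hS, e1, e2, e3⟩ := ses {(1, 1)} {(1, 2), (1, 1)} {(1, 2)} (by decide) (by decide)
      (by decide) (by decide) (by decide) (by decide)
    exact e2 ▸ (t1 S hS trivial trivial trivial).1 (e1 ▸ l1 _ X2) (e3 ▸ a1)
  have a3 : F 2 (T {(1, 0)} (by decide)) := by
    obtain ⟨S, hS, e1, e2, e3⟩ := ses {(1, 0)} {(1, 2), (1, 1), (1, 0)} {(1, 2), (1, 1)}
      (by decide) (by decide) (by decide) (by decide) (by decide) (by decide)
    have b2 : F 1 S.X₂ := e2 ▸ l1 _ X13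
    exact e1 ▸ (t2 S hS ((t1 S hS trivial trivial trivial).2 b2) b2 (e3 ▸ a2)).2 (e2 ▸ l3 _ X13)
  obtain ⟨S, hS, e1, e2, e3⟩ := ses {(0, 0)} {(1, 0), (0, 0)} {(1, 0)}
    (by decide) (by decide) (by decide) (by decide) (by decide) (by decide)
  have b2 : F 2 S.X₂ := e2 ▸ l3 _ X34
  have b3 : F 2 S.X₃ := e3 ▸ a3
  have b1 : F 2 S.X₁ :=
    (t2 S hS ((t1 S hS trivial trivial trivial).2 (l2 _ b2)) (l2 _ b2) (l2 _ b3)).2 b2
  have := (t3 S hS b1 b2 b3).2 (by change F 3 _; rw [h3, e2]; exact X34)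
  change F 3 _ at this
  rw [h3, e1] at this
  exact not4 this

end Pool.Agent.Results.MP_8e2405_al.No
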